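import Pool.Agent.H751.PC.Large

/-!
# Groups which act properly, but not cocompactly, on systolic complexes

For a graph `S` on the vertices `V`, `tri S` is the two-skeleton of the flag complex of `S` (the
faces are the triangles), and `(tri S).SC` means that it, and hence the flag complex, is simply
connected. `LocLarge S k`: the flag complex of `S` is locally `k`-large, i.e. the link of a vertex
has no full cycles of length `m` with `4 ≤ m < k` (simplicial nonpositive curvature of Januszkiewicz
and Świątkowski). A simply connected locally `k`-large flag complex is called `k`-systolic if
`k ≥ 6`; the dimension is arbitrary, it can also be infinite. `Sys k H`: the group `H` acts with
finite stabilizers and finitely many orbits of vertices on a locally finite complex of this kind,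
i.e. it is a `k`-systolic group. `DirColim D G`: the group `G` is the colimit of a directed system
of groups with the property `D`.

Every group which acts with finite stabilizers on a locally finite `k`-systolic complex, with
arbitrarily many orbits, is the colimit of a directed system of `k`-systolic groups.

For `k ≥ 7` the `k`-systolic groups are hyperbolic, so that they satisfy the Farrell–Jones conjecture
for A-theory with coefficients and finite wreath products. The class of the groups which satisfy it
is closed under directed colimits. So it contains all groups which act with finite stabilizers on
locally finite `7`-systolic complexes.

Outline of the proof. Subcomplexes of nonpositively curved complexes of dimension at least three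
need not be nonpositively curved, but full subcomplexes of locally `k`-large flag complexes are
locally `k`-large, and so are coverings of flag complexes: a full cycle in a link of the universal
covering of the full subcomplex maps to a full cycle, since neighbours `p`, `q` of a vertex `v` are
adjacent in the covering if and only if their images are adjacent. Let `Y_K` be the full subcomplex
spanned by the orbits of the elements of a finite set `K` of vertices. The group of all lifts of
elements of `G` to the universal covering of the component of the base point in `Y_K` acts on it
properly and cocompactly, and `G` is the directed colimit of these groups.
-/

set_option autoImplicit false

namespace Pool.Agent.Results.MP_2a547c_gt.SystolicActions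

open Pool.Agent.H751.PC

theorem result (k : ℕ) (G V : Type) [Group G] [MulAction G V] [Nonempty V] (S : SimpleGraph V)
    (hSC : (tri S).SC) (hLarge : LocLarge S k)
    (hInv : ∀ (g : G) a b, S.Adj a b → S.Adj (g • a) (g • b))
    (hLocFin : ∀ v, (S.neighborSet v).Finite)
    (hStab : ∀ v : V, Finite (MulAction.stabilizer G v)) :
    DirColim (fun H _ => Sys k H) G :=
  sys_main k S hSC hLarge hInv hLocFin hStab

end Pool.Agent.Results.MP_2a547c_gt.SystolicActions
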